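import Mathlib
import Pool.Agent.Q266.FacDvd
import Pool.Agent.Q266.IntTools

set_option autoImplicit false

/-!
The normalised `(20k+3)` sum: `(-1)^(n-1) a_n` is a positive integer for every `n ≥ 2`.
-/

namespace Pool.Agent.Results.MP_f65ae4_nt.SignIntegrality

open Finset Q266.FacDvd Q266.IntTools

/-- `M_k = (4k)!/(k!)^4`. -/
noncomputable def M (k : ℕ) : ℚ := ((4 * k).factorial : ℚ) / (k.factorial : ℚ) ^ 4

/-- `S_n = ∑_{k<n} (20k+3) M_k (-1024)^(n-1-k)`. -/
noncomputable def S (n : ℕ) : ℚ :=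
  ∑ k ∈ Finset.range n, (20 * (k : ℚ) + 3) * M k * (-1024) ^ (n - 1 - k)

/-- `a_n = S_n / (2n(2n+1)C(2n,n))`. -/
noncomputable def a (n : ℕ) : ℚ :=
  S n / (2 * (n : ℚ) * (2 * (n : ℚ) + 1) * ((2 * n).choose n : ℚ))

/-! ### The telescoping pair -/

/-- first member of the pair -/
noncomputable def F (n k : ℕ) : ℚ :=
  if k ≤ n then (-4) ^ k * (k.factorial : ℚ) ^ 2 / ((2 * k).factorial : ℚ) ^ 2 *
    (((4 * n + 2 * k).factorial : ℚ) * ((2 * n).factorial : ℚ) /
    (((2 * n + k).factorial : ℚ) * ((n - k).factorial : ℚ) * (n.factorial : ℚ) ^ 3)) *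
      (20 * n - 2 * k + 3) / (-1024) ^ n
  else 0

/-- second member of the pair -/
noncomputable def G (n k : ℕ) : ℚ :=
  if k + 1 ≤ n then (-4) ^ k * (k.factorial : ℚ) ^ 2 / ((2 * k + 1).factorial : ℚ) ^ 2 *
    (128 * n ^ 2 * ((4 * n + 2 * k).factorial : ℚ) * ((2 * n).factorial : ℚ) /
    (((2 * n + k).factorial : ℚ) * ((n - k - 1).factorial : ℚ) * (n.factorial : ℚ) ^ 3)) /
      (-1024) ^ n
  else 0

theorem fac_ne (j : ℕ) : (j.factorial : ℚ) ≠ 0 := by exact_mod_cast Nat.factorial_ne_zero j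

theorem pair (n k : ℕ) : F n (k + 1) - F n k = G (n + 1) k - G n k := by
  rcases lt_trichotomy n k with h | h | h
  · have h1 : ¬ (k + 1 ≤ n) := by omega
    have h2 : ¬ (k ≤ n) := by omega
    have h3 : ¬ (k + 1 ≤ n + 1) := by omega
    simp [F, G, h1, h2, h3]
  · subst h
    have h1 : ¬ (n + 1 ≤ n) := by omega
    have e1 : 4 * (n + 1) + 2 * n = 4 * n + 2 * n + 1 + 1 + 1 + 1 := by ring
    have e2 : 2 * (n + 1) = 2 * n + 1 + 1 := by ring
    have e3 : 2 * (n + 1) + n = 2 * n + n + 1 + 1 := by ring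
    have e4 : n + 1 - n - 1 = 0 := by omega
    simp only [F, G, h1, le_refl, if_true, if_false, e4, e1, Nat.sub_self, Nat.factorial_zero]
    rw [e3, e2]
    simp only [Nat.factorial_succ]
    push_cast
    have g1 := fac_ne (4 * n + 2 * n)
    have g2 := fac_ne (2 * n)
    have g3 := fac_ne (2 * n + n)
    have g4 := fac_ne n
    generalize (4 * n + 2 * n).factorial = A at *
    generalize (2 * n).factorial = B at *
    generalize (2 * n + n).factorial = C at *
    generalize n.factorial = D at *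
    have q1 : 2 * (n : ℚ) + 1 ≠ 0 := by positivity
    have q2 : 2 * (n : ℚ) + n + 1 ≠ 0 := by positivity
    have q3 : 2 * (n : ℚ) + n + 1 + 1 ≠ 0 := by positivity
    have q4 : (n : ℚ) + 1 ≠ 0 := by positivity
    rw [pow_succ (-1024 : ℚ)]
    have q5 : (-1024 : ℚ) ^ n ≠ 0 := pow_ne_zero _ (by norm_num)
    field_simp
    ring
  · obtain ⟨m, rfl⟩ : ∃ m, n = k + 1 + m := ⟨n - k - 1, by omega⟩
    have h1 : k + 1 ≤ k + 1 + m := by omega
    have h2 : k ≤ k + 1 + m := by omega
    have h3 : k + 1 ≤ k + 1 + m + 1 := by omega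
    have s1 : k + 1 + m - (k + 1) = m := by omega
    have s2 : k + 1 + m - k = m + 1 := by omega
    have s3 : k + 1 + m + 1 - k - 1 = m + 1 := by omega
    have s4 : m + 1 - 1 = m := by omega
    have e1 : 4 * (k + 1 + m) + 2 * (k + 1) = 4 * (k + 1 + m) + 2 * k + 1 + 1 := by ring
    have e2 : 4 * (k + 1 + m + 1) + 2 * k = 4 * (k + 1 + m) + 2 * k + 1 + 1 + 1 + 1 := by ring
    have e3 : 2 * (k + 1 + m + 1) + k = 2 * (k + 1 + m) + k + 1 + 1 := by ring
    have e4 : 2 * (k + 1 + m) + (k + 1) = 2 * (k + 1 + m) + k + 1 := by ring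
    have e5 : 2 * (k + 1 + m + 1) = 2 * (k + 1 + m) + 1 + 1 := by ring
    have e6 : 2 * (k + 1) = 2 * k + 1 + 1 := by ring
    simp only [F, G, h1, h2, h3, if_true, s1, s2, s3, s4, e1, e2, e3, e4]
    rw [e5, e6]
    rw [Nat.factorial_succ (4 * (k + 1 + m) + 2 * k + 1 + 1 + 1),
      Nat.factorial_succ (4 * (k + 1 + m) + 2 * k + 1 + 1),
      Nat.factorial_succ (4 * (k + 1 + m) + 2 * k + 1), Nat.factorial_succ (4 * (k + 1 + m) + 2 * k),
      Nat.factorial_succ (2 * (k + 1 + m) + k + 1), Nat.factorial_succ (2 * (k + 1 + m) + k),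
      Nat.factorial_succ (2 * (k + 1 + m) + 1), Nat.factorial_succ (2 * (k + 1 + m)),
      Nat.factorial_succ (2 * k + 1), Nat.factorial_succ (2 * k),
      Nat.factorial_succ m, Nat.factorial_succ (k + 1 + m), Nat.factorial_succ k]
    have g1 := fac_ne (4 * (k + 1 + m) + 2 * k)
    have g2 := fac_ne (2 * (k + 1 + m) + k)
    have g3 := fac_ne (2 * (k + 1 + m))
    have g4 := fac_ne (2 * k)
    have g5 := fac_ne m
    have g6 := fac_ne (k + 1 + m)
    have g7 := fac_ne k
    generalize (4 * (k + 1 + m) + 2 * k).factorial = A at *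
    generalize (2 * (k + 1 + m) + k).factorial = B at *
    generalize (2 * (k + 1 + m)).factorial = C at *
    generalize (2 * k).factorial = D at *
    generalize m.factorial = E at *
    generalize (k + 1 + m).factorial = H at *
    generalize k.factorial = J at *
    push_cast
    have q1 : 2 * ((k : ℚ) + 1 + m) + k + 1 ≠ 0 := by positivity
    have q2 : 2 * ((k : ℚ) + 1 + m) + k + 1 + 1 ≠ 0 := by positivity
    have q3 : 2 * (k : ℚ) + 1 ≠ 0 := by positivity
    have q4 : (m : ℚ) + 1 ≠ 0 := by positivity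
    have q5 : (k : ℚ) + 1 + m + 1 ≠ 0 := by positivity
    have q6 : 2 * (k : ℚ) + 1 + 1 ≠ 0 := by positivity
    have q8 : (k : ℚ) + 1 ≠ 0 := by positivity
    rw [pow_succ (-1024 : ℚ) (k + 1 + m), pow_succ (-4 : ℚ) k]
    have q7 : (-1024 : ℚ) ^ (k + 1 + m) ≠ 0 := pow_ne_zero _ (by norm_num)
    field_simp
    ring

theorem G_zero (k : ℕ) : G 0 k = 0 := by simp [G]

theorem F_of_lt (n k : ℕ) (h : n < k) : F n k = 0 := by
  have : ¬ (k ≤ n) := by omega
  simp [F, this]

theorem partial_sum (N k : ℕ) :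
    (∑ n ∈ range N, F n (k + 1)) - ∑ n ∈ range N, F n k = G N k := by
  rw [← Finset.sum_sub_distrib]
  have h : ∀ n ∈ range N, F n (k + 1) - F n k = G (n + 1) k - G n k := fun n _ => pair n k
  rw [Finset.sum_congr rfl h, Finset.sum_range_sub (fun n => G n k) N, G_zero, sub_zero]

theorem sum_eq (N : ℕ) : ∑ n ∈ range N, F n 0 = - ∑ k ∈ range N, G N k := by
  have h1 : ∑ k ∈ range N, G N k
      = ∑ k ∈ range N, ((∑ n ∈ range N, F n (k + 1)) - ∑ n ∈ range N, F n k) :=
    Finset.sum_congr rfl fun k _ => (partial_sum N k).symm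
  have h2 := Finset.sum_range_sub (fun k => ∑ n ∈ range N, F n k) N
  rw [h1, h2]
  have h3 : ∑ n ∈ range N, F n N = 0 :=
    Finset.sum_eq_zero fun n hn => F_of_lt n N (Finset.mem_range.1 hn)
  rw [h3]
  ring

theorem cb (k : ℕ) : ((2 * k).choose k : ℚ) = ((2 * k).factorial : ℚ) / (k.factorial : ℚ) ^ 2 := by
  rw [Nat.cast_choose ℚ (by omega : k ≤ 2 * k)]
  have : 2 * k - k = k := by omega
  rw [this]; ring

theorem F_at_zero (k : ℕ) : F k 0 = (20 * (k : ℚ) + 3) * M k / (-1024) ^ k := by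
  have g1 := fac_ne (2 * k)
  have g2 := fac_ne k
  simp only [F, M, Nat.zero_le, if_true, mul_zero, add_zero, Nat.sub_zero, pow_zero,
    Nat.factorial_zero]
  push_cast
  field_simp
  ring

/-! ### First expansion -/

/-- the terms of the expansion of `a_n` -/
noncomputable def U (n k : ℕ) : ℚ :=
  if k + 1 ≤ n then ((k.factorial : ℚ) ^ 2 * 4 ^ k * ((4 * n + 2 * k).factorial : ℚ)) /
    (16 * (2 * n + 1) * ((2 * k + 1).factorial : ℚ) ^ 2 * ((2 * n + k).factorial : ℚ) *
      ((n - k - 1).factorial : ℚ) * ((n - 1).factorial : ℚ))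
  else 0

theorem a_eq (n : ℕ) (hn : 1 ≤ n) : a n = ∑ k ∈ range n, (-1) ^ k * U n k := by
  have hS : S n = (-1024) ^ (n - 1) * ∑ k ∈ range n, F k 0 := by
    unfold S
    rw [Finset.mul_sum]
    apply Finset.sum_congr rfl
    intro k hk
    rw [Finset.mem_range] at hk
    rw [F_at_zero]
    have : (-1024 : ℚ) ^ (n - 1) = (-1024) ^ (n - 1 - k) * (-1024) ^ k := by
      rw [← pow_add]; congr 1; omega
    rw [this]
    have h8 : (-1024 : ℚ) ^ k ≠ 0 := pow_ne_zero _ (by norm_num)
    field_simp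
  unfold a
  rw [hS, sum_eq, ← Finset.sum_neg_distrib, Finset.mul_sum, Finset.sum_div]
  apply Finset.sum_congr rfl
  intro k hk
  rw [Finset.mem_range] at hk
  obtain ⟨m, rfl⟩ : ∃ m, n = m + 1 := ⟨n - 1, by omega⟩
  have h1 : k + 1 ≤ m + 1 := by omega
  simp only [G, h1, if_true, U, cb, Nat.add_sub_cancel]
  rw [Nat.factorial_succ m]
  have g1 := fac_ne (2 * (m + 1) + k)
  have g2 := fac_ne (m + 1 - k - 1)
  have g3 := fac_ne m
  have g4 := fac_ne (2 * k + 1)
  have g5 := fac_ne (2 * (m + 1))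
  generalize (2 * (m + 1) + k).factorial = A at *
  generalize (m + 1 - k - 1).factorial = B at *
  generalize m.factorial = C at *
  generalize (2 * k + 1).factorial = E at *
  generalize (2 * (m + 1)).factorial = H at *
  push_cast
  have q1 : (m : ℚ) + 1 ≠ 0 := by positivity
  have q2 : 2 * ((m : ℚ) + 1) + 1 ≠ 0 := by positivity
  have q3 : (-1024 : ℚ) ^ m ≠ 0 := pow_ne_zero _ (by norm_num)
  have q4 : (-4 : ℚ) ^ k = (-1) ^ k * 4 ^ k := by rw [← mul_pow]; norm_num
  rw [pow_succ (-1024 : ℚ), q4]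
  field_simp
  ring

/-! ### Second expansion -/

/-- the terms of the second expansion -/
noncomputable def Q (n k : ℕ) : ℚ := (2 * n + 1) * U n k / (2 * k + 3)

theorem U_step (n k : ℕ) (hk : k < n) :
    U n k * (1 - 2 * k) - Q n k * (2 * k + 5 - 4 * n) = (2 * k + 3) * U n (k + 1) := by
  unfold Q
  rcases Nat.lt_or_ge (k + 1) n with h | h
  · obtain ⟨m, rfl⟩ : ∃ m, n = k + 2 + m := ⟨n - k - 2, by omega⟩
    have h1 : k + 1 ≤ k + 2 + m := by omega
    have h2 : k + 1 + 1 ≤ k + 2 + m := by omega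
    have s1 : k + 2 + m - k - 1 = m + 1 := by omega
    have s2 : k + 2 + m - (k + 1) - 1 = m := by omega
    have e1 : 4 * (k + 2 + m) + 2 * (k + 1) = 4 * (k + 2 + m) + 2 * k + 1 + 1 := by ring
    have e2 : 2 * (k + 1) + 1 = 2 * k + 1 + 1 + 1 := by ring
    have e3 : 2 * (k + 2 + m) + (k + 1) = 2 * (k + 2 + m) + k + 1 := by ring
    simp only [U, h1, h2, if_true, s1, s2, e1, e2, e3]
    rw [Nat.factorial_succ k, Nat.factorial_succ (2 * k + 1 + 1), Nat.factorial_succ (2 * k + 1),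
      Nat.factorial_succ (4 * (k + 2 + m) + 2 * k + 1), Nat.factorial_succ (4 * (k + 2 + m) + 2 * k),
      Nat.factorial_succ (2 * (k + 2 + m) + k), Nat.factorial_succ m]
    have g1 := fac_ne k
    have g2 := fac_ne (2 * k + 1)
    have g3 := fac_ne (4 * (k + 2 + m) + 2 * k)
    have g4 := fac_ne (2 * (k + 2 + m) + k)
    have g5 := fac_ne m
    have g6 := fac_ne (k + 2 + m - 1)
    generalize k.factorial = A at *
    generalize (2 * k + 1).factorial = B at *
    generalize (4 * (k + 2 + m) + 2 * k).factorial = C at *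
    generalize (2 * (k + 2 + m) + k).factorial = D at *
    generalize m.factorial = E at *
    generalize (k + 2 + m - 1).factorial = H at *
    push_cast
    have q1 : (k : ℚ) + 1 ≠ 0 := by positivity
    have q2 : 2 * (k : ℚ) + 3 ≠ 0 := by positivity
    have q3 : 2 * (k : ℚ) + 1 + 1 ≠ 0 := by positivity
    have q4 : 2 * (k : ℚ) + 1 + 1 + 1 ≠ 0 := by positivity
    have q5 : 2 * ((k : ℚ) + 2 + m) + k + 1 ≠ 0 := by positivity
    have q6 : (m : ℚ) + 1 ≠ 0 := by positivity
    have q7 : 2 * ((k : ℚ) + 2 + m) + 1 ≠ 0 := by positivity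
    field_simp
    ring
  · obtain rfl : n = k + 1 := by omega
    have h1 : k + 1 ≤ k + 1 := le_rfl
    have h2 : ¬ (k + 1 + 1 ≤ k + 1) := by omega
    have hU : U (k + 1) (k + 1) = 0 := by simp [U, h2]
    rw [hU]
    push_cast
    have q2 : 2 * (k : ℚ) + 3 ≠ 0 := by positivity
    field_simp
    ring

theorem a_eq' (n : ℕ) (hn : 1 ≤ n) :
    a n = (∑ k ∈ range n, ((((-1 : ℤ) ^ k * (2 * k + 5 - 4 * n) : ℤ)) : ℚ) * (1 / 2) * Q n k) +
      1 / 2 * U n 0 := by
  rw [a_eq n hn]
  have h : ∀ k ∈ range n, (-1 : ℚ) ^ k * U n k =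
      ((((-1 : ℤ) ^ k * (2 * k + 5 - 4 * n) : ℤ)) : ℚ) * (1 / 2) * Q n k +
      ((-(-1 : ℚ) ^ (k + 1) * (2 * (k + 1 : ℕ) + 1) / 2 * U n (k + 1)) -
        (-(-1 : ℚ) ^ k * (2 * k + 1) / 2 * U n k)) := by
    intro k hk
    rw [Finset.mem_range] at hk
    have h1 := U_step n k hk
    push_cast
    rw [pow_succ]
    linear_combination ((-1 : ℚ) ^ k / 2) * h1
  rw [Finset.sum_congr rfl h, Finset.sum_add_distrib,
    Finset.sum_range_sub (fun k : ℕ => -(-1 : ℚ) ^ k * (2 * k + 1) / 2 * U n k) n]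
  have hU : U n n = 0 := by simp [U]
  rw [hU]
  push_cast
  ring

/-! ### Integrality -/

theorem OI_div {a b : ℕ} (hb : b ≠ 0)
    (h : b.factorization 2 ≤ a.factorization 2) : OI ((a : ℚ) / b) := by
  have h1 := Nat.ordProj_mul_ordCompl_eq_self a 2
  have h2 := Nat.ordProj_mul_ordCompl_eq_self b 2
  have h3 : ¬ 2 ∣ b / 2 ^ b.factorization 2 := Nat.not_dvd_ordCompl Nat.prime_two hb
  generalize b / 2 ^ b.factorization 2 = b' at *
  generalize a / 2 ^ a.factorization 2 = a' at *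
  obtain ⟨c, hc⟩ := Nat.exists_eq_add_of_le h
  refine OI.of_div (a := 2 ^ c * a') (b := b') (by omega) ?_
  have hb' : (b' : ℚ) ≠ 0 := by
    have : b' ≠ 0 := by
      rintro rfl
      exact h3 (dvd_zero _)
    exact_mod_cast this
  have h2' : (2 : ℚ) ^ b.factorization 2 ≠ 0 := by positivity
  rw [← h1, ← h2, hc, pow_add]
  push_cast
  have e1 : (2 : ℕ) ^ b.factorization 2 * 2 ^ c * a' = 2 ^ a.factorization 2 * a' := by
    rw [← pow_add, ← hc]
  field_simp

theorem f2_mul {x y : ℕ} (hx : x ≠ 0) (hy : y ≠ 0) :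
    (x * y).factorization 2 = x.factorization 2 + y.factorization 2 := by
  rw [Nat.factorization_mul hx hy]
  rfl

theorem f2_pow (x e : ℕ) : (x ^ e).factorization 2 = e * x.factorization 2 := by
  rw [Nat.factorization_pow]
  simp

theorem f2_odd {x : ℕ} (h : x % 2 = 1) : x.factorization 2 = 0 :=
  Nat.factorization_eq_zero_of_not_dvd (by omega)

theorem f2_two_pow (e : ℕ) : ((2 : ℕ) ^ e).factorization 2 = e := by
  rw [Nat.Prime.factorization_pow Nat.prime_two, Finsupp.single_eq_same]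

theorem OI_U (n k : ℕ) (hn : 2 ≤ n) (hk : k < n) : OI (U n k) := by
  have h1 : k + 1 ≤ n := hk
  have hf : ∀ m : ℕ, m.factorial ≠ 0 := Nat.factorial_ne_zero
  have e : U n k = ((k.factorial ^ 2 * (2 ^ (2 * k) * (4 * n + 2 * k).factorial) : ℕ) : ℚ) /
      ((2 ^ 4 * ((2 * n + 1) * ((2 * k + 1).factorial ^ 2 * ((2 * n + k).factorial *
        ((n - k - 1).factorial * (n - 1).factorial)))) : ℕ) : ℚ) := by
    simp only [U, h1, if_true]
    push_cast
    rw [pow_mul]
    norm_num
    ring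
  rw [e]
  have p2 : ∀ j : ℕ, (2 : ℕ) ^ j ≠ 0 := fun j => by positivity
  apply OI_div
  · exact mul_ne_zero (p2 _) (mul_ne_zero (by omega) (mul_ne_zero (pow_ne_zero _ (hf _))
      (mul_ne_zero (hf _) (mul_ne_zero (hf _) (hf _)))))
  rw [f2_mul (p2 _) (mul_ne_zero (by omega) (mul_ne_zero (pow_ne_zero _ (hf _))
      (mul_ne_zero (hf _) (mul_ne_zero (hf _) (hf _))))),
    f2_mul (by omega) (mul_ne_zero (pow_ne_zero _ (hf _))
      (mul_ne_zero (hf _) (mul_ne_zero (hf _) (hf _)))),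
    f2_mul (pow_ne_zero _ (hf _)) (mul_ne_zero (hf _) (mul_ne_zero (hf _) (hf _))),
    f2_mul (hf _) (mul_ne_zero (hf _) (hf _)), f2_mul (hf _) (hf _),
    f2_mul (pow_ne_zero _ (hf _)) (mul_ne_zero (p2 _) (hf _)), f2_mul (p2 _) (hf _),
    f2_pow (k.factorial) 2, f2_pow ((2 * k + 1).factorial) 2, f2_two_pow, f2_two_pow,
    f2_odd (by omega : (2 * n + 1) % 2 = 1)]
  change 4 + (0 + (2 * v (2 * k + 1) + (v (2 * n + k) + (v (n - k - 1) + v (n - 1))))) ≤
    2 * v k + (2 * k + v (4 * n + 2 * k))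
  rw [v_succ_double, show 4 * n + 2 * k = 2 * (2 * n + k) by ring, v_double]
  have h2 := v_lt (n - 1) (by omega)
  rcases Nat.eq_zero_or_pos (n - k - 1) with h3 | h3
  · rw [h3, v_zero]
    omega
  · have h4 := v_lt (n - k - 1) (by omega)
    omega

theorem floor_ineq (n k q : ℕ) (hk : k < n) (hq : 2 < q) (hodd : q % 2 = 1) :
    (2 * n + k) / q + ((2 * k + 1) / q + ((2 * k + 3) / q + ((n - k - 1) / q + (n - 1) / q)))
      ≤ (4 * n + 2 * k) / q + (k / q + (k + 1) / q) := by
  have hq0 : 0 < q := by omega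
  have hr : n % q < q := Nat.mod_lt _ hq0
  have hs : k % q < q := Nat.mod_lt _ hq0
  have en := Nat.div_add_mod n q
  have ek := Nat.div_add_mod k q
  generalize n % q = r at *
  generalize k % q = s at *
  generalize n / q = x at *
  generalize k / q = y at *
  subst en
  subst ek
  have t1 : (2 * (q * x + r) + (q * y + s)) / q = 2 * x + y + (2 * r + s) / q := by
    rw [show 2 * (q * x + r) + (q * y + s) = q * (2 * x + y) + (2 * r + s) by ring,
      Nat.mul_add_div hq0]
  have t2 : (2 * (q * y + s) + 1) / q = 2 * y + (2 * s + 1) / q := by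
    rw [show 2 * (q * y + s) + 1 = q * (2 * y) + (2 * s + 1) by ring, Nat.mul_add_div hq0]
  have t3 : (2 * (q * y + s) + 3) / q = 2 * y + (2 * s + 3) / q := by
    rw [show 2 * (q * y + s) + 3 = q * (2 * y) + (2 * s + 3) by ring, Nat.mul_add_div hq0]
  have t4 : (4 * (q * x + r) + 2 * (q * y + s)) / q = 4 * x + 2 * y + (4 * r + 2 * s) / q := by
    rw [show 4 * (q * x + r) + 2 * (q * y + s) = q * (4 * x + 2 * y) + (4 * r + 2 * s) by ring,
      Nat.mul_add_div hq0]
  have t6 : (q * y + s + 1) / q = y + (s + 1) / q := by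
    rw [show q * y + s + 1 = q * y + (s + 1) by ring, Nat.mul_add_div hq0]
  rw [t1, t2, t3, t4, t6]
  have d1 : (2 * r + s) / q < 3 := Nat.div_lt_of_lt_mul (by omega)
  have d2 : (2 * s + 1) / q < 2 := Nat.div_lt_of_lt_mul (by omega)
  have d3 : (2 * s + 3) / q < 3 := Nat.div_lt_of_lt_mul (by omega)
  have d4 : (4 * r + 2 * s) / q < 6 := Nat.div_lt_of_lt_mul (by omega)
  have d5 : (s + 1) / q < 2 := Nat.div_lt_of_lt_mul (by omega)
  have u1 := Nat.div_mul_le_self (2 * r + s) q
  have u2 := Nat.div_mul_le_self (2 * s + 1) q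
  have u3 := Nat.div_mul_le_self (2 * s + 3) q
  have u4 := Nat.lt_div_mul_add (a := 4 * r + 2 * s) hq0
  have u5 := Nat.lt_div_mul_add (a := s + 1) hq0
  have key : ∀ z w : ℕ, (q * x + r - (q * y + s) - 1) / q = z → (q * x + r - 1) / q = w →
      x ≤ w + (if r = 0 then 1 else 0) → w ≤ x → w + (if r = 0 then 1 else 0) ≤ x →
      z + y + (if r ≤ s then 1 else 0) ≤ x →
      2 * x + y + (2 * r + s) / q + (2 * y + (2 * s + 1) / q + (2 * y + (2 * s + 3) / q +
        ((q * x + r - (q * y + s) - 1) / q + (q * x + r - 1) / q))) ≤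
        4 * x + 2 * y + (4 * r + 2 * s) / q + (y + (y + (s + 1) / q)) := by
    intro z w hz hw h1 h2 h3 h4
    rw [hz, hw]
    clear hz hw t1 t2 t3 t4 t6 hk
    generalize (2 * r + s) / q = e1 at *
    generalize (2 * s + 1) / q = e2 at *
    generalize (2 * s + 3) / q = e3 at *
    generalize (4 * r + 2 * s) / q = e4 at *
    generalize (s + 1) / q = e5 at *
    split_ifs at h1 h3 h4 <;>
      interval_cases e1 <;> interval_cases e2 <;> interval_cases e3 <;> interval_cases e5 <;>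
      first
        | omega
        | (interval_cases e4 <;> omega)
  have hw : x ≤ (q * x + r - 1) / q + (if r = 0 then 1 else 0) ∧ (q * x + r - 1) / q ≤ x ∧
      (q * x + r - 1) / q + (if r = 0 then 1 else 0) ≤ x := by
    by_cases hr0 : r = 0
    · subst hr0
      simp only [if_true, add_zero]
      rcases Nat.eq_zero_or_pos x with hx | hx
      · subst hx
        omega
      · obtain ⟨x', rfl⟩ : ∃ x', x = x' + 1 := ⟨x - 1, by omega⟩
        have : (q * (x' + 1) - 1) / q = x' := by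
          rw [show q * (x' + 1) - 1 = q * x' + (q - 1) by rw [mul_add]; omega,
            Nat.mul_add_div hq0, Nat.div_eq_of_lt (by omega), add_zero]
        rw [this]
        omega
    · simp only [hr0, if_false, add_zero]
      have : (q * x + r - 1) / q = x := by
        rw [show q * x + r - 1 = q * x + (r - 1) by omega,
            Nat.mul_add_div hq0, Nat.div_eq_of_lt (by omega), add_zero]
      rw [this]
      omega
  have hz : (q * x + r - (q * y + s) - 1) / q + y + (if r ≤ s then 1 else 0) ≤ x := by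
    by_cases hrs : r ≤ s
    · simp only [hrs, if_true]
      have hxy : y + 1 ≤ x := by
        by_contra hlt
        have h1 : q * x ≤ q * y := Nat.mul_le_mul_left q (by omega)
        omega
      obtain ⟨w, rfl⟩ := Nat.exists_eq_add_of_le hxy
      have t6 : (q * (y + 1 + w) + r - (q * y + s) - 1) / q = w := by
        rw [show q * (y + 1 + w) + r - (q * y + s) - 1 = q * w + (q + r - s - 1) by
          rw [mul_add, mul_add]; omega, Nat.mul_add_div hq0, Nat.div_eq_of_lt (by omega), add_zero]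
      rw [t6]
      omega
    · simp only [hrs, if_false]
      have hxy : y ≤ x := by
        by_contra hlt
        have h1 : q * (x + 1) ≤ q * y := Nat.mul_le_mul_left q (by omega)
        have h2 : q * (x + 1) = q * x + q := by ring
        omega
      obtain ⟨w, rfl⟩ := Nat.exists_eq_add_of_le hxy
      have t6 : (q * (y + w) + r - (q * y + s) - 1) / q = w := by
        rw [show q * (y + w) + r - (q * y + s) - 1 = q * w + (r - s - 1) by
          rw [mul_add]; omega, Nat.mul_add_div hq0, Nat.div_eq_of_lt (by omega), add_zero]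
      rw [t6]
      omega
  exact key _ _ rfl rfl hw.1 hw.2.1 hw.2.2 hz

theorem TI_Q (n k : ℕ) (hk : k < n) : TI (Q n k) := by
  have h1 : k + 1 ≤ n := hk
  have hf : ∀ m : ℕ, m.factorial ≠ 0 := Nat.factorial_ne_zero
  obtain ⟨e, he⟩ := fac_dvd_two [2 * n + k, 2 * k + 1, 2 * k + 3, n - k - 1, n - 1]
    [4 * n + 2 * k, k, k + 1] (by
      intro q hq hodd
      simpa using floor_ineq n k q hk hq hodd)
  have h2 : TI ((((4 * n + 2 * k).factorial * (k.factorial * (k + 1).factorial) : ℕ) : ℚ) /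
      (((2 * n + k).factorial * ((2 * k + 1).factorial * ((2 * k + 3).factorial *
        ((n - k - 1).factorial * (n - 1).factorial))) : ℕ) : ℚ)) := by
    refine TI.of_dvd (e := e) ?_ ?_ rfl
    · exact mul_ne_zero (hf _) (mul_ne_zero (hf _) (mul_ne_zero (hf _) (mul_ne_zero (hf _) (hf _))))
    · simpa using he
  have h3 := ((TI.int (4 ^ k * 2)).mul (TI.pow_inv 4)).mul h2
  convert h3 using 1
  simp only [Q, U, h1, if_true]
  rw [show 2 * k + 3 = 2 * k + 1 + 1 + 1 by ring, Nat.factorial_succ k,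
    Nat.factorial_succ (2 * k + 1 + 1), Nat.factorial_succ (2 * k + 1)]
  have g1 := fac_ne (2 * n + k)
  have g2 := fac_ne (2 * k + 1)
  have g3 := fac_ne (n - k - 1)
  have g4 := fac_ne (n - 1)
  have g5 := fac_ne k
  generalize (4 * n + 2 * k).factorial = A at *
  generalize (2 * n + k).factorial = B at *
  generalize (2 * k + 1).factorial = C at *
  generalize (n - k - 1).factorial = D at *
  generalize (n - 1).factorial = E at *
  generalize k.factorial = H at *
  push_cast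
  have q1 : 2 * (n : ℚ) + 1 ≠ 0 := by positivity
  have q2 : 2 * (k : ℚ) + 1 + 1 ≠ 0 := by positivity
  have q3 : 2 * (k : ℚ) + 1 + 1 + 1 ≠ 0 := by positivity
  have q4 : 2 * (k : ℚ) + 3 ≠ 0 := by positivity
  have q5 : (k : ℚ) + 1 ≠ 0 := by positivity
  field_simp
  ring

theorem floor_ineq' (n q : ℕ) (hn : 1 ≤ n) (hq : 2 < q) (hodd : q % 2 = 1) :
    (2 * n + 1) / q + ((n - 1) / q + (n - 1) / q) ≤ 4 * n / q := by
  have hq0 : 0 < q := by omega
  have hr : n % q < q := Nat.mod_lt _ hq0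
  have en := Nat.div_add_mod n q
  generalize n % q = r at *
  generalize n / q = x at *
  subst en
  have t1 : (2 * (q * x + r) + 1) / q = 2 * x + (2 * r + 1) / q := by
    rw [show 2 * (q * x + r) + 1 = q * (2 * x) + (2 * r + 1) by ring, Nat.mul_add_div hq0]
  have t2 : 4 * (q * x + r) / q = 4 * x + 4 * r / q := by
    rw [show 4 * (q * x + r) = q * (4 * x) + 4 * r by ring, Nat.mul_add_div hq0]
  rw [t1, t2]
  by_cases hr0 : r = 0
  · subst hr0
    obtain ⟨x', rfl⟩ : ∃ x', x = x' + 1 := ⟨x - 1, by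
      have : x ≠ 0 := by rintro rfl; omega
      omega⟩
    have : (q * (x' + 1) + 0 - 1) / q = x' := by
      rw [show q * (x' + 1) + 0 - 1 = q * x' + (q - 1) by rw [mul_add]; omega,
        Nat.mul_add_div hq0, Nat.div_eq_of_lt (by omega), add_zero]
    rw [this]
    have h6 : (2 * 0 + 1) / q = 0 := Nat.div_eq_of_lt (by omega)
    rw [h6]
    have h7 : 4 * 0 / q = 0 := by simp
    rw [h7]
    omega
  · have : (q * x + r - 1) / q = x := by
      rw [show q * x + r - 1 = q * x + (r - 1) by omega,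
          Nat.mul_add_div hq0, Nat.div_eq_of_lt (by omega), add_zero]
    rw [this]
    have h5 : (2 * r + 1) / q ≤ 4 * r / q := Nat.div_le_div_right (by omega)
    omega

theorem TI_U0 (n : ℕ) (hn : 1 ≤ n) : TI (U n 0) := by
  have hf : ∀ m : ℕ, m.factorial ≠ 0 := Nat.factorial_ne_zero
  obtain ⟨e, he⟩ := fac_dvd_two [2 * n + 1, n - 1, n - 1] [4 * n] (by
      intro q hq hodd
      simpa using floor_ineq' n q hn hq hodd)
  have h2 : TI ((((4 * n).factorial : ℕ) : ℚ) /
      (((2 * n + 1).factorial * ((n - 1).factorial * (n - 1).factorial) : ℕ) : ℚ)) := by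
    refine TI.of_dvd (e := e) ?_ ?_ rfl
    · exact mul_ne_zero (hf _) (mul_ne_zero (hf _) (hf _))
    · simpa using he
  have h3 := (TI.pow_inv 4).mul h2
  convert h3 using 1
  have h1 : 0 + 1 ≤ n := hn
  simp only [U, h1, if_true, mul_zero, add_zero, Nat.sub_zero, Nat.factorial_zero, pow_zero, zero_add,
    Nat.factorial_one]
  rw [Nat.factorial_succ (2 * n)]
  have g1 := fac_ne (2 * n)
  have g4 := fac_ne (n - 1)
  generalize (4 * n).factorial = A at *
  generalize (2 * n).factorial = B at *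
  generalize (n - 1).factorial = E at *
  push_cast
  have q1 : 2 * (n : ℚ) + 1 ≠ 0 := by positivity
  field_simp
  ring

theorem integral (n : ℕ) (hn : 2 ≤ n) : ∃ z : ℤ, a n = z := by
  apply int_of_OI_TI
  · rw [a_eq n (by omega)]
    apply OI.sum
    intro k hk
    have h1 : OI ((((-1 : ℤ) ^ k : ℤ) : ℚ)) := OI.int _
    have h2 := h1.mul (OI_U n k hn (Finset.mem_range.1 hk))
    simpa using h2
  · rw [a_eq' n (by omega)]
    apply TI.add
    · apply TI.sum
      intro k hk
      exact ((TI.int _).mul TI.half).mul (TI_Q n k (Finset.mem_range.1 hk))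
    · exact TI.half.mul (TI_U0 n (by omega))

/-! ### Sign -/

/-- absolute values of the terms -/
noncomputable def t (k : ℕ) : ℚ := (20 * (k : ℚ) + 3) * M k / 1024 ^ k

theorem M_pos (k : ℕ) : 0 < M k := by unfold M; positivity

theorem t_pos (k : ℕ) : 0 < t k := by
  have := M_pos k
  unfold t
  positivity

theorem t_step (k : ℕ) : 2 * t (k + 1) ≤ t k := by
  have hM : M (k + 1) = M k * ((4 * k + 4) * (4 * k + 3) * (4 * k + 2) * (4 * k + 1)) /
      (k + 1) ^ 4 := by
    unfold M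
    rw [show 4 * (k + 1) = 4 * k + 1 + 1 + 1 + 1 by ring, Nat.factorial_succ (4 * k + 1 + 1 + 1),
      Nat.factorial_succ (4 * k + 1 + 1), Nat.factorial_succ (4 * k + 1), Nat.factorial_succ (4 * k),
      Nat.factorial_succ k]
    have g1 := fac_ne k
    push_cast
    field_simp
    ring
  have h1 := M_pos k
  unfold t
  rw [hM, pow_succ (1024 : ℚ) k]
  have h2 : (0 : ℚ) < 1024 ^ k := by positivity
  have h3 : (0 : ℚ) < k + 1 := by positivity
  have h4 : 2 * ((20 * ((k + 1 : ℕ) : ℚ) + 3) * (M k * ((4 * k + 4) * (4 * k + 3) * (4 * k + 2) *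
      (4 * k + 1)) / (k + 1) ^ 4) / (1024 ^ k * 1024))
      = M k / (1024 ^ k * (k + 1) ^ 3 * 1024) * (16 * (20 * k + 23) * (4 * k + 3) * (2 * k + 1) *
        (4 * k + 1)) := by
    push_cast
    field_simp
    ring
  have h5 : (20 * (k : ℚ) + 3) * M k / 1024 ^ k
      = M k / (1024 ^ k * (k + 1) ^ 3 * 1024) * (1024 * (20 * k + 3) * (k + 1) ^ 3) := by
    field_simp
  rw [h4, h5]
  apply mul_le_mul_of_nonneg_left _ (by positivity)
  have hk : (0 : ℚ) ≤ k := by positivity
  nlinarith [pow_nonneg hk 2, pow_nonneg hk 3, pow_nonneg hk 4]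

theorem alt_bound (n : ℕ) (hn : 1 ≤ n) :
    |(∑ k ∈ range n, (-1 : ℚ) ^ k * t k) - t 0| ≤ 2 * t 1 - 2 * t n := by
  induction n, hn using Nat.le_induction with
  | base => simp
  | succ n hn ih =>
    rw [Finset.sum_range_succ]
    have h1 : |(-1 : ℚ) ^ n * t n| = t n := by
      rw [abs_mul, abs_pow, abs_neg, abs_one, one_pow, one_mul, abs_of_pos (t_pos n)]
    have h2 := abs_add_le ((∑ k ∈ range n, (-1 : ℚ) ^ k * t k) - t 0) ((-1 : ℚ) ^ n * t n)
    have h3 := t_step n
    have h4 : (∑ k ∈ range n, (-1 : ℚ) ^ k * t k) - t 0 + (-1 : ℚ) ^ n * t n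
        = (∑ k ∈ range n, (-1 : ℚ) ^ k * t k) + (-1 : ℚ) ^ n * t n - t 0 := by ring
    rw [h4] at h2
    linarith

theorem positive (n : ℕ) (hn : 1 ≤ n) : 0 < (-1 : ℚ) ^ (n - 1) * a n := by
  have hS : (-1 : ℚ) ^ (n - 1) * S n = 1024 ^ (n - 1) * ∑ k ∈ range n, (-1) ^ k * t k := by
    unfold S
    rw [Finset.mul_sum, Finset.mul_sum]
    apply Finset.sum_congr rfl
    intro k hk
    rw [Finset.mem_range] at hk
    obtain ⟨m, rfl⟩ : ∃ m, n = k + 1 + m := ⟨n - k - 1, by omega⟩
    have s1 : k + 1 + m - 1 = k + m := by omega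
    have s2 : k + m - k = m := by omega
    rw [s1, s2]
    unfold t
    have h8 : (1024 : ℚ) ^ k ≠ 0 := by positivity
    have h9 : (-1024 : ℚ) ^ m = (-1) ^ m * 1024 ^ m := by rw [← mul_pow]; norm_num
    have h10 : (-1 : ℚ) ^ m * (-1) ^ m = 1 := by rw [← mul_pow]; norm_num
    have h11 : (1024 : ℚ) ^ k * ((20 * (k : ℚ) + 3) * M k / 1024 ^ k) = (20 * (k : ℚ) + 3) * M k := by
      field_simp
    rw [h9, pow_add, pow_add]
    linear_combination (-1 : ℚ) ^ k * 1024 ^ m * (20 * (k : ℚ) + 3) * M k * h10 -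
      (-1 : ℚ) ^ k * 1024 ^ m * h11
  have h1 := alt_bound n hn
  have h2 := (abs_le.1 h1).1
  have h3 : t 0 = 3 := by simp [t, M]
  have h4 : t 1 = 552 / 1024 := by
    norm_num [t, M, Nat.factorial]
  have h5 := t_pos n
  have h6 : 0 < ∑ k ∈ range n, (-1 : ℚ) ^ k * t k := by
    rw [h3, h4] at h2
    linarith
  have h7 : 0 < (-1 : ℚ) ^ (n - 1) * S n := by
    rw [hS]
    positivity
  have h8 : (0 : ℚ) < 2 * (n : ℚ) * (2 * (n : ℚ) + 1) * ((2 * n).choose n : ℚ) := by
    have h9 : 0 < (2 * n).choose n := Nat.choose_pos (by omega)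
    have h10 : (0 : ℚ) < ((2 * n).choose n : ℚ) := by exact_mod_cast h9
    have h11 : (0 : ℚ) < n := by exact_mod_cast hn
    positivity
  unfold a
  rw [← mul_div_assoc]
  exact div_pos h7 h8

/-- `(-1)^(n-1) a_n` is a positive integer for every `n ≥ 2`. -/
theorem result : ∀ n : ℕ, 2 ≤ n → ∃ z : ℤ, 0 < z ∧ (-1 : ℚ) ^ (n - 1) * a n = (z : ℚ) := by
  intro n hn
  obtain ⟨z, hz⟩ := integral n hn
  have hp := positive n (by omega)
  refine ⟨(-1) ^ (n - 1) * z, ?_, ?_⟩
  · rw [hz] at hp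
    exact_mod_cast hp
  · rw [hz]
    push_cast
    ring

end Pool.Agent.Results.MP_f65ae4_nt.SignIntegrality
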